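import Pool.Agent.Helper95.HS.Stmts
import Pool.Agent.Helper33.PM.Com

/-! # HS: the row LGA -/

set_option autoImplicit false

namespace Pool.Agent.Helper77.HS

open MeasureTheory Filter Pool.Agent.Helper95.PW Pool.Agent.Helper95.LN Pool.Agent.Helper95.CF
open Pool.Agent.Helper95.HS

theorem LGA_int {n : ℕ} (W : Cf n → ℝ) (hW : Continuous W) (b : ℝ) (hb : ∀ x, |W x| ≤ b)
    (v : Cf n → ℝ) (hv : MemLp v 2) : Integrable (fun x => W x * v x ^ 2) := by
  have h1 : Integrable (fun x => b * v x ^ 2) := hv.integrable_sq.const_mul b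
  refine h1.mono' (hW.aestronglyMeasurable.mul hv.integrable_sq.aestronglyMeasurable) ?_
  refine Eventually.of_forall fun x => ?_
  rw [Real.norm_eq_abs, abs_mul, abs_of_nonneg (sq_nonneg (v x))]
  exact mul_le_mul_of_nonneg_right (hb x) (sq_nonneg _)

theorem LGA_aux {n : ℕ} (W : Cf n → ℝ) (hW : Continuous W) (b : ℝ) (hb : ∀ x, |W x| ≤ b)
    (u v : Cf n → ℝ) (hu : MemLp u 2) (hv : MemLp v 2) (ε : ℝ) (hε : 0 < ε) :
    |(∫ x, W x * u x ^ 2) - ∫ x, W x * v x ^ 2| ≤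
      b * ((∫ x, (u x - v x) ^ 2) + (ε * (∫ x, v x ^ 2) + (∫ x, (u x - v x) ^ 2) / ε)) := by
  have hb0 : 0 ≤ b := (abs_nonneg _).trans (hb (fun _ _ => 0))
  have i1 := LGA_int W hW b hb u hu
  have i2 := LGA_int W hW b hb v hv
  have i3 : Integrable (fun x => (u x - v x) ^ 2) := (hu.sub hv).integrable_sq
  have i4 : Integrable (fun x => v x ^ 2) := hv.integrable_sq
  have i5 : Integrable (fun x => ε * v x ^ 2) := i4.const_mul ε
  have i6 : Integrable (fun x => (u x - v x) ^ 2 / ε) := i3.div_const ε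
  have i7 : Integrable (fun x => ε * v x ^ 2 + (u x - v x) ^ 2 / ε) := i5.add i6
  have i8 : Integrable (fun x => (u x - v x) ^ 2 + (ε * v x ^ 2 + (u x - v x) ^ 2 / ε)) :=
    i3.add i7
  rw [← integral_sub i1 i2, ← Real.norm_eq_abs]
  have e : b * ((∫ x, (u x - v x) ^ 2) + (ε * (∫ x, v x ^ 2) + (∫ x, (u x - v x) ^ 2) / ε)) =
      ∫ x, b * ((u x - v x) ^ 2 + (ε * v x ^ 2 + (u x - v x) ^ 2 / ε)) := by
    rw [integral_const_mul, integral_add i3 i7, integral_add i5 i6, integral_const_mul,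
      integral_div]
  rw [e]
  refine norm_integral_le_of_norm_le (i8.const_mul b) (Eventually.of_forall fun x => ?_)
  have e1 : W x * u x ^ 2 - W x * v x ^ 2 = W x * (u x ^ 2 - v x ^ 2) := by ring
  rw [e1, Real.norm_eq_abs, abs_mul]
  have h1 : |u x ^ 2 - v x ^ 2| ≤ (u x - v x) ^ 2 + (ε * v x ^ 2 + (u x - v x) ^ 2 / ε) := by
    have h2 : ∀ a c : ℝ, 2 * a * c ≤ ε * a ^ 2 + c ^ 2 / ε := by
      intro a c
      have h3 : 0 ≤ (ε * a - c) ^ 2 / ε := by positivity
      have h4 : (ε * a - c) ^ 2 / ε = ε * a ^ 2 + c ^ 2 / ε - 2 * a * c := by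
        field_simp
        ring
      linarith
    have h5 := h2 (v x) (u x - v x)
    have h6 := h2 (-(v x)) (u x - v x)
    rw [neg_sq] at h6
    have h7 := sq_nonneg (u x - v x)
    rw [abs_le]
    constructor
    · nlinarith
    · nlinarith
  exact mul_le_mul (hb x) h1 (abs_nonneg _) hb0

theorem LGA : ST_LGA := by
  intro n φ u w B hw hB hφ hu hD
  obtain ⟨W, hWe⟩ : ∃ W : Cf n → ℝ, W = fun x => ∑ k, w (x k) := ⟨_, rfl⟩
  have hW : Continuous W := by
    rw [hWe]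
    exact continuous_finsetSum _ fun k _ => hw.comp (continuous_apply k)
  obtain ⟨b, hb⟩ : ∃ b : ℝ, b = n * B := ⟨_, rfl⟩
  have hWb : ∀ x, |W x| ≤ b := by
    intro x
    rw [hWe, hb]
    calc |∑ k, w (x k)| ≤ ∑ k : Fin n, |w (x k)| := Finset.abs_sum_le_sum_abs _ _
      _ ≤ ∑ _k : Fin n, B := Finset.sum_le_sum fun k _ => hB _
      _ = n * B := by simp
  have hb0 : 0 ≤ b := (abs_nonneg _).trans (hWb (fun _ _ => 0))
  have hone : ∀ v : Wf n, one w v = ∑ s, ∫ x, W x * v s x ^ 2 := by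
    intro v
    rw [hWe]
    rfl
  obtain ⟨D, hDe⟩ : ∃ D : ℕ → ℝ, D = fun j => Helper95.PW.sq (fun s x => u j s x - φ s x) :=
    ⟨_, rfl⟩
  have hD0 : ∀ j, 0 ≤ D j := fun j => by
    rw [hDe]
    exact com_sq_nonneg _
  have hDl : Tendsto D atTop (nhds 0) := by
    rw [hDe]
    exact hD
  have key : ∀ (j : ℕ) (ε : ℝ), 0 < ε → |one w (u j) - one w φ| ≤
      b * (D j + (ε * Helper95.PW.sq φ + D j / ε)) := by
    intro j ε hε
    rw [hone, hone, ← Finset.sum_sub_distrib, hDe]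
    refine (Finset.abs_sum_le_sum_abs _ _).trans ?_
    have e : b * (Helper95.PW.sq (fun s x => u j s x - φ s x) + (ε * Helper95.PW.sq φ +
        Helper95.PW.sq (fun s x => u j s x - φ s x) / ε)) =
        ∑ s, b * ((∫ x, (u j s x - φ s x) ^ 2) + (ε * (∫ x, φ s x ^ 2) +
          (∫ x, (u j s x - φ s x) ^ 2) / ε)) := by
      unfold Helper95.PW.sq
      rw [← Finset.mul_sum, Finset.sum_add_distrib, Finset.sum_add_distrib, ← Finset.mul_sum,
        Finset.sum_div]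
    show ∑ s, |(∫ x, W x * u j s x ^ 2) - ∫ x, W x * φ s x ^ 2| ≤ _
    rw [e]
    refine Finset.sum_le_sum fun s _ => ?_
    exact LGA_aux W hW b hWb (u j s) (φ s) (com_memLp _ (hu j s).1 (hu j s).2) (hφ s) ε hε
  have key2 : ∀ j : ℕ, |one w (u j) - one w φ| ≤
      b * (D j + ((Real.sqrt (D j) + 1 / ((j : ℝ) + 1)) * Helper95.PW.sq φ +
        Real.sqrt (D j))) := by
    intro j
    have hj : 0 < 1 / ((j : ℝ) + 1) := by positivity
    have hs := Real.sqrt_nonneg (D j)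
    have hp : 0 < Real.sqrt (D j) + 1 / ((j : ℝ) + 1) := by linarith
    refine (key j _ hp).trans ?_
    apply mul_le_mul_of_nonneg_left _ hb0
    have h1 : D j / (Real.sqrt (D j) + 1 / ((j : ℝ) + 1)) ≤ Real.sqrt (D j) := by
      rw [div_le_iff₀ hp]
      have h2 := Real.mul_self_sqrt (hD0 j)
      nlinarith [mul_nonneg hs hj.le]
    linarith
  have hs0 : Tendsto (fun j => Real.sqrt (D j)) atTop (nhds 0) := by
    have := hDl.sqrt
    rwa [Real.sqrt_zero] at this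
  have hj0 : Tendsto (fun j : ℕ => 1 / ((j : ℝ) + 1)) atTop (nhds 0) :=
    tendsto_one_div_add_atTop_nhds_zero_nat
  have hlim : Tendsto (fun j : ℕ => b * (D j + ((Real.sqrt (D j) + 1 / ((j : ℝ) + 1)) *
      Helper95.PW.sq φ + Real.sqrt (D j)))) atTop (nhds 0) := by
    have h1 := (hDl.add (((hs0.add hj0).mul_const (Helper95.PW.sq φ)).add hs0)).const_mul b
    simpa using h1
  rw [tendsto_iff_norm_sub_tendsto_zero]
  refine squeeze_zero (fun j => norm_nonneg _) (fun j => ?_) hlim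
  rw [Real.norm_eq_abs]
  exact key2 j

end Pool.Agent.Helper77.HS
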